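import Mathlib

/-!
# MP_6859a2_co: disjoint cycles through prescribed vertices in claw-free graphs

Connectivity `3k - 1` is exactly what is needed: every `(3k-1)`-connected claw-free graph has, for
every choice of `k` distinct vertices, `k` pairwise disjoint cycles each through exactly one of
them, while the complete graph on `3k - 1` vertices is `(3k-2)`-connected, claw-free and too small.
-/

namespace Pool.Agent.Results.MP_6859a2_co.ClawFreeCycles

open SimpleGraph

/-- `G` has no induced subgraph isomorphic to `K_{1,3}`. -/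
def ClawFree {V : Type*} (G : SimpleGraph V) : Prop :=
  ∀ x a b c, G.Adj x a → G.Adj x b → G.Adj x c → a ≠ b → a ≠ c → b ≠ c →
    G.Adj a b ∨ G.Adj a c ∨ G.Adj b c

/-- `G` is `c`-connected: it has more than `c` vertices, and deleting any set of fewer than `c`
vertices leaves a connected graph. -/
def IsConn {V : Type*} [Fintype V] (c : ℕ) (G : SimpleGraph V) : Prop :=
  c < Fintype.card V ∧ ∀ S : Finset V, S.card < c → (G.induce {x | x ∉ S}).Connected

/-- The vertices `v 0, v 1, ...` are separated by disjoint cycles: there are cycles through the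
`v i`, no two of which have a common vertex. -/
def Separated {V : Type*} (G : SimpleGraph V) {k : ℕ} (v : Fin k → V) : Prop :=
  ∃ p : ∀ i, G.Walk (v i) (v i), (∀ i, (p i).IsCycle) ∧
    ∀ i j, i ≠ j → ∀ x, x ∈ (p i).support → x ∉ (p j).support

/-- In every `c`-connected claw-free graph, every `k` distinct vertices are separated by `k`
disjoint cycles. -/
def Suffices (k c : ℕ) : Prop :=
  ∀ (V : Type) [Fintype V] (G : SimpleGraph V), IsConn c G → ClawFree G →
    ∀ v : Fin k → V, Function.Injective v → Separated G v

/-- The least connectivity `c` that suffices, and `∞` if there is none. -/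
noncomputable def f (k : ℕ) : ℕ∞ := ⨅ c ∈ {c : ℕ | Suffices k c}, (c : ℕ∞)

/-! ### Cycles from paths -/

lemma cycle_of_path {V : Type*} {G : SimpleGraph V} {v a b : V} (P : G.Walk a b) (hP : P.IsPath)
    (hv : v ∉ P.support) (hab : a ≠ b) (hva : G.Adj v a) (hbv : G.Adj b v) :
    ∃ p : G.Walk v v, p.IsCycle ∧ ∀ x ∈ p.support, x = v ∨ x ∈ P.support := by
  refine ⟨Walk.cons hva (P.concat hbv), ?_, ?_⟩
  · rw [Walk.cons_isCycle_iff]
    refine ⟨hP.concat hv hbv, ?_⟩
    rw [Walk.edges_concat, List.concat_eq_append, List.mem_append, List.mem_singleton]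
    rintro (h | h)
    · exact hv (P.fst_mem_support_of_mem_edges h)
    · rw [Sym2.eq_iff] at h
      rcases h with ⟨h, -⟩ | ⟨-, h⟩
      · exact hv (h ▸ P.end_mem_support)
      · exact hab h
  · intro x hx
    rw [Walk.support_cons, List.mem_cons, Walk.support_concat,
      List.mem_append, List.mem_singleton] at hx
    tauto

/-- The vertex `u` lies on a cycle whose other vertices are in `X`. -/
def Good {V : Type*} (G : SimpleGraph V) (u : V) (X : Finset V) : Prop :=
  ∃ p : G.Walk u u, p.IsCycle ∧ ∀ x ∈ p.support, x = u ∨ x ∈ X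

lemma good_edge {V : Type*} [DecidableEq V] {G : SimpleGraph V} {u a b : V} (h1 : G.Adj u a)
    (h2 : G.Adj a b) (h3 : G.Adj u b) : Good G u {a, b} := by
  obtain ⟨p, hp, hp'⟩ := cycle_of_path (v := u) (Walk.cons h2 Walk.nil)
    (by simp [h2.ne]) (by simp [h1.ne, h3.ne]) h2.ne h1 h3.symm
  refine ⟨p, hp, fun x hx => ?_⟩
  have := hp' x hx
  simpa using this

lemma separated_of_good {V : Type*} [DecidableEq V] {G : SimpleGraph V} {k : ℕ} {v : Fin k → V}
    (hv : Function.Injective v) (X : Fin k → Finset V) (hX : ∀ i, Good G (v i) (X i))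
    (hd : ∀ i j, v j ∉ X i) (hdd : ∀ i j, i ≠ j → Disjoint (X i) (X j)) : Separated G v := by
  choose p hp hp' using hX
  refine ⟨p, hp, fun i j hij x hx hx' => ?_⟩
  rcases hp' i x hx with h | h <;> rcases hp' j x hx' with h' | h'
  · exact hij (hv (h.symm.trans h'))
  · exact hd j i (h ▸ h')
  · exact hd i j (h' ▸ h)
  · exact Finset.disjoint_left.1 (hdd i j hij) h h'

/-! ### Choosing disjoint edges greedily -/

lemma greedy {ι V : Type*} [DecidableEq ι] [DecidableEq V] (G : SimpleGraph V) (t : ℕ)
    (N : ι → Finset V) (I : Finset ι) : ∀ F : Finset V,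
    (∀ l ∈ I, ∀ T ⊆ N l, t ≤ T.card → ∃ a ∈ T, ∃ b ∈ T, G.Adj a b) →
    (∀ l ∈ I, 2 * I.card + t ≤ (N l \ F).card + 2) →
    ∃ e : ι → Finset V, (∀ l ∈ I, ∃ a b, G.Adj a b ∧ e l = {a, b}) ∧ (∀ l ∈ I, e l ⊆ N l \ F) ∧
      ∀ l ∈ I, ∀ m ∈ I, l ≠ m → Disjoint (e l) (e m) := by
  induction I using Finset.induction_on with
  | empty => intro F _ _; exact ⟨fun _ => ∅, by simp, by simp, by simp⟩
  | @insert i I hi ih =>
    intro F hT hc
    have hcard : (insert i I).card = I.card + 1 := Finset.card_insert_of_notMem hi
    obtain ⟨a, ha, b, hb, hab⟩ := hT i (Finset.mem_insert_self i I) (N i \ F)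
      Finset.sdiff_subset (by
        have := hc i (Finset.mem_insert_self i I)
        omega)
    obtain ⟨e, he1, he2, he3⟩ := ih (F ∪ {a, b})
      (fun l hl => hT l (Finset.mem_insert_of_mem hl)) (by
        intro l hl
        have h1 := hc l (Finset.mem_insert_of_mem hl)
        have h2 : (N l \ F).card ≤ (N l \ (F ∪ {a, b})).card + 2 := by
          have h3 : N l \ F ⊆ (N l \ (F ∪ {a, b})) ∪ {a, b} := by
            intro x hx
            rw [Finset.mem_union, Finset.mem_sdiff, Finset.mem_union]
            rw [Finset.mem_sdiff] at hx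
            tauto
          have h4 := Finset.card_le_card h3
          have h5 := Finset.card_union_le (N l \ (F ∪ {a, b})) {a, b}
          have h6 : ({a, b} : Finset V).card ≤ 2 := Finset.card_le_two
          omega
        omega)
    have hne : ∀ l ∈ I, l ≠ i := fun l hl h => hi (h ▸ hl)
    refine ⟨Function.update e i {a, b}, ?_, ?_, ?_⟩
    · intro l hl
      rcases Finset.mem_insert.1 hl with rfl | hl
      · exact ⟨a, b, hab, by simp⟩
      · rw [Function.update_of_ne (hne l hl)]
        exact he1 l hl
    · intro l hl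
      rcases Finset.mem_insert.1 hl with rfl | hl
      · rw [Function.update_self]
        intro x hx
        rcases Finset.mem_insert.1 hx with rfl | hx
        · exact ha
        · rw [Finset.mem_singleton] at hx
          exact hx ▸ hb
      · rw [Function.update_of_ne (hne l hl)]
        refine (he2 l hl).trans ?_
        exact Finset.sdiff_subset_sdiff le_rfl Finset.subset_union_left
    · intro l hl m hm hlm
      have hdis : ∀ l ∈ I, Disjoint (e l) {a, b} := by
        intro l hl
        rw [Finset.disjoint_left]
        intro x hx hx'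
        have := he2 l hl hx
        rw [Finset.mem_sdiff, Finset.mem_union] at this
        exact this.2 (Or.inr hx')
      rcases Finset.mem_insert.1 hl with hl' | hl'
      · rcases Finset.mem_insert.1 hm with hm' | hm'
        · exact absurd (hl'.trans hm'.symm) hlm
        · rw [hl', Function.update_self, Function.update_of_ne (hne m hm')]
          exact (hdis m hm').symm
      · rcases Finset.mem_insert.1 hm with hm' | hm'
        · rw [hm', Function.update_self, Function.update_of_ne (hne l hl')]
          exact hdis l hl'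
        · rw [Function.update_of_ne (hne m hm'), Function.update_of_ne (hne l hl')]
          exact he3 l hl' m hm' hlm

/-! ### Connectivity and degrees -/

lemma degree_ge {V : Type*} [Fintype V] [DecidableEq V] {G : SimpleGraph V} [DecidableRel G.Adj]
    {c : ℕ} (hc : IsConn c G) (u : V) : c ≤ (Finset.univ.filter (G.Adj u)).card := by
  by_contra hlt
  push Not at hlt
  have hcon := hc.2 _ hlt
  obtain ⟨w, hw⟩ : ∃ w, w ∉ insert u (Finset.univ.filter (G.Adj u)) := by
    by_contra h
    push Not at h
    have h1 : Fintype.card V ≤ (insert u (Finset.univ.filter (G.Adj u))).card := by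
      rw [← Finset.card_univ]
      exact Finset.card_le_card fun x _ => h x
    have h2 := Finset.card_insert_le u (Finset.univ.filter (G.Adj u))
    have := hc.1
    omega
  rw [Finset.mem_insert, not_or] at hw
  have hu : u ∈ {x | x ∉ Finset.univ.filter (G.Adj u)} := by simp
  have hw' : w ∈ {x | x ∉ Finset.univ.filter (G.Adj u)} := hw.2
  obtain ⟨p⟩ := hcon.preconnected ⟨u, hu⟩ ⟨w, hw'⟩
  have hnn : ¬ p.Nil := by
    intro h
    have := h.eq
    exact hw.1 (Subtype.ext_iff.1 this).symm
  have h1 : (G.induce {x | x ∉ Finset.univ.filter (G.Adj u)}).Adj ⟨u, hu⟩ p.snd :=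
    Walk.adj_snd hnn
  have h2 := p.snd.2
  apply h2
  simpa using h1

/-! ### The upper bound -/

section Upper

variable {V : Type} [Fintype V] [DecidableEq V] (G : SimpleGraph V) [DecidableRel G.Adj] {k : ℕ}
  (v : Fin k → V)

/-- The neighbours of `v i` which are not prescribed vertices. -/
def Nb (i : Fin k) : Finset V := Finset.univ.filter fun w => G.Adj (v i) w ∧ ∀ j, w ≠ v j

lemma mem_Nb {i : Fin k} {w : V} : w ∈ Nb G v i ↔ G.Adj (v i) w ∧ ∀ j, w ≠ v j := by
  simp [Nb]

variable {G v}

lemma Nb_card (hv : Function.Injective v) (hc : IsConn (3 * k - 1) G) (i : Fin k) :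
    2 * k ≤ (Nb G v i).card := by
  have h1 := degree_ge hc (v i)
  have h2 : Finset.univ.filter (G.Adj (v i)) ⊆ Nb G v i ∪ (Finset.univ.image v).erase (v i) := by
    intro w hw
    rw [Finset.mem_filter] at hw
    rw [Finset.mem_union, mem_Nb, Finset.mem_erase, Finset.mem_image]
    by_cases h : ∃ j, v j = w
    · right
      obtain ⟨j, hj⟩ := h
      exact ⟨hw.2.ne', j, Finset.mem_univ _, hj⟩
    · left
      refine ⟨hw.2, fun j hj => h ⟨j, hj.symm⟩⟩
  have h3 := Finset.card_le_card h2
  have h4 := Finset.card_union_le (Nb G v i) ((Finset.univ.image v).erase (v i))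
  have h5 : ((Finset.univ.image v).erase (v i)).card = k - 1 := by
    rw [Finset.card_erase_of_mem (Finset.mem_image_of_mem _ (Finset.mem_univ _)),
      Finset.card_image_of_injective _ hv]
    simp
  have := i.pos
  omega

lemma three_edge (hG : ClawFree G) (i : Fin k) (T : Finset V) (hT : T ⊆ Nb G v i)
    (h3 : 3 ≤ T.card) : ∃ a ∈ T, ∃ b ∈ T, G.Adj a b := by
  obtain ⟨a, ha, b, hb, c, hc, hab, hac, hbc⟩ := Finset.two_lt_card.1 h3
  have ha' := (mem_Nb G v).1 (hT ha)
  have hb' := (mem_Nb G v).1 (hT hb)
  have hc' := (mem_Nb G v).1 (hT hc)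
  rcases hG (v i) a b c ha'.1 hb'.1 hc'.1 hab hac hbc with h | h | h
  · exact ⟨a, ha, b, hb, h⟩
  · exact ⟨a, ha, c, hc, h⟩
  · exact ⟨b, hb, c, hc, h⟩

/-- Assembling the cycles: triangles for all indices but `j`, and a good set for `j`. -/
lemma assemble (hv : Function.Injective v) (j : Fin k) (e : Fin k → Finset V)
    (he1 : ∀ l, l ≠ j → ∃ a b, G.Adj a b ∧ e l = {a, b}) (he2 : ∀ l, l ≠ j → e l ⊆ Nb G v l)
    (he3 : ∀ l m, l ≠ j → m ≠ j → l ≠ m → Disjoint (e l) (e m)) (X : Finset V)
    (hX : Good G (v j) X) (hX1 : ∀ l, v l ∉ X) (hX2 : ∀ l, l ≠ j → Disjoint (e l) X) :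
    Separated G v := by
  apply separated_of_good hv (Function.update e j X)
  · intro i
    by_cases h : i = j
    · subst h
      rw [Function.update_self]
      exact hX
    · rw [Function.update_of_ne h]
      obtain ⟨a, b, hab, he⟩ := he1 i h
      rw [he]
      have ha : a ∈ Nb G v i := he2 i h (by rw [he]; simp)
      have hb : b ∈ Nb G v i := he2 i h (by rw [he]; simp)
      exact good_edge ((mem_Nb G v).1 ha).1 hab ((mem_Nb G v).1 hb).1
  · intro i l
    by_cases h : i = j
    · subst h
      rw [Function.update_self]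
      exact hX1 l
    · rw [Function.update_of_ne h]
      intro hl
      exact ((mem_Nb G v).1 (he2 i h hl)).2 l rfl
  · intro i l hil
    by_cases h : i = j
    · subst h
      rw [Function.update_self, Function.update_of_ne (Ne.symm hil)]
      exact (hX2 l (Ne.symm hil)).symm
    · rw [Function.update_of_ne h]
      by_cases h' : l = j
      · subst h'
        rw [Function.update_self]
        exact hX2 i h
      · rw [Function.update_of_ne h']
        exact he3 i l h h' hil

/-- If after choosing the other triangles three neighbours of `v j` are left, we are done. -/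
lemma assemble_three (hG : ClawFree G) (hv : Function.Injective v) (j : Fin k)
    (e : Fin k → Finset V)
    (he1 : ∀ l, l ≠ j → ∃ a b, G.Adj a b ∧ e l = {a, b}) (he2 : ∀ l, l ≠ j → e l ⊆ Nb G v l)
    (he3 : ∀ l m, l ≠ j → m ≠ j → l ≠ m → Disjoint (e l) (e m))
    (h3 : 3 ≤ (Nb G v j \ (Finset.univ.erase j).biUnion e).card) : Separated G v := by
  obtain ⟨a, ha, b, hb, hab⟩ := three_edge hG j _ Finset.sdiff_subset h3
  rw [Finset.mem_sdiff, mem_Nb] at ha hb
  refine assemble hv j e he1 he2 he3 {a, b} (good_edge ha.1.1 hab hb.1.1) ?_ ?_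
  · intro l hl
    rcases Finset.mem_insert.1 hl with h | h
    · exact ha.1.2 l h.symm
    · exact hb.1.2 l (Finset.mem_singleton.1 h).symm
  · intro l hl
    rw [Finset.disjoint_left]
    intro x hx hx'
    have hmem : x ∈ (Finset.univ.erase j).biUnion e :=
      Finset.mem_biUnion.2 ⟨l, Finset.mem_erase.2 ⟨hl, Finset.mem_univ _⟩, hx⟩
    rcases Finset.mem_insert.1 hx' with h | h
    · exact ha.2 (h ▸ hmem)
    · exact hb.2 (Finset.mem_singleton.1 h ▸ hmem)

/-- The case of a common clique. -/
lemma finish (hc : IsConn (3 * k - 1) G) (hv : Function.Injective v) (j : Fin k)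
    (C : Finset V) (x : V) (hC : ∀ a ∈ C, ∀ b ∈ C, a ≠ b → G.Adj a b) (hCc : C.card + 1 = 2 * k)
    (hCN : ∀ l, C ⊆ Nb G v l) (hx : x ∈ Nb G v j) (hxC : x ∉ C) : Separated G v := by
  have hk := j.pos
  obtain ⟨c, hcC⟩ : C.Nonempty := by
    rw [← Finset.card_pos]
    omega
  have hIc : (Finset.univ.erase j).card = k - 1 := by
    rw [Finset.card_erase_of_mem (Finset.mem_univ _)]
    simp
  obtain ⟨e, he1, he2, he3⟩ := greedy G 2 (fun _ : Fin k => C) (Finset.univ.erase j) {c}
    (by
      intro l _ T hT h2
      obtain ⟨a, ha, b, hb, hab⟩ := Finset.one_lt_card.1 h2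
      exact ⟨a, ha, b, hb, hC a (hT ha) b (hT hb) hab⟩)
    (by
      intro l _
      have : (C \ {c}).card = C.card - 1 := by
        rw [Finset.sdiff_singleton_eq_erase, Finset.card_erase_of_mem hcC]
      rw [hIc]
      show 2 * (k - 1) + 2 ≤ (C \ {c}).card + 2
      omega)
  have hmem : ∀ l, l ≠ j → l ∈ Finset.univ.erase j := fun l hl =>
    Finset.mem_erase.2 ⟨hl, Finset.mem_univ _⟩
  set S : Finset V := Finset.univ.image v ∪ C.erase c with hS
  have hScard : S.card < 3 * k - 1 := by
    have h1 := Finset.card_union_le (Finset.univ.image v) (C.erase c)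
    have h2 : (Finset.univ.image v).card = k := by
      rw [Finset.card_image_of_injective _ hv]; simp
    have h3 := Finset.card_erase_of_mem hcC
    show (Finset.univ.image v ∪ C.erase c).card < 3 * k - 1
    omega
  have hcN := (mem_Nb G v).1 (hCN j hcC)
  have hxN := (mem_Nb G v).1 hx
  have hcS : c ∈ {y | y ∉ S} := by
    show c ∉ S
    rw [hS, Finset.mem_union, not_or]
    refine ⟨?_, Finset.notMem_erase c C⟩
    intro h
    obtain ⟨l, -, hl⟩ := Finset.mem_image.1 h
    exact hcN.2 l hl.symm
  have hxS : x ∈ {y | y ∉ S} := by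
    show x ∉ S
    rw [hS, Finset.mem_union, not_or]
    refine ⟨?_, fun h => hxC (Finset.mem_of_mem_erase h)⟩
    intro h
    obtain ⟨l, -, hl⟩ := Finset.mem_image.1 h
    exact hxN.2 l hl.symm
  obtain ⟨q, hq⟩ := (hc.2 S hScard).exists_isPath ⟨c, hcS⟩ ⟨x, hxS⟩
  set P := q.map (Embedding.induce {y | y ∉ S}).toHom with hP
  have hPp : P.IsPath := hq.map (Embedding.induce (G := G) {y | y ∉ S}).injective
  have hPs : ∀ y ∈ P.support, y ∉ S := by
    intro y hy
    rw [hP, Walk.support_map, List.mem_map] at hy
    obtain ⟨z, -, rfl⟩ := hy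
    exact z.2
  have hvS : ∀ l, v l ∈ S := fun l =>
    Finset.mem_union_left _ (Finset.mem_image_of_mem v (Finset.mem_univ l))
  obtain ⟨p, hp, hp'⟩ := cycle_of_path (v := v j) P hPp (fun h => hPs _ h (hvS j))
    (fun h : c = x => hxC (h ▸ hcC)) hcN.1 hxN.1.symm
  refine assemble hv j e (fun l hl => he1 l (hmem l hl))
    (fun l hl => ((he2 l (hmem l hl)).trans Finset.sdiff_subset).trans (hCN l))
    (fun l m hl hm hlm => he3 l (hmem l hl) m (hmem m hm) hlm) Sᶜ ⟨p, hp, ?_⟩ ?_ ?_
  · intro y hy
    rcases hp' y hy with h | h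
    · exact Or.inl h
    · exact Or.inr (Finset.mem_compl.2 (hPs y h))
  · intro l hl
    exact Finset.mem_compl.1 hl (hvS l)
  · intro l hl
    rw [Finset.disjoint_left]
    intro y hy hy'
    have h1 := he2 l (hmem l hl) hy
    rw [Finset.mem_sdiff, Finset.mem_singleton] at h1
    exact Finset.mem_compl.1 hy' (Finset.mem_union_right _ (Finset.mem_erase.2 ⟨h1.2, h1.1⟩))

theorem upper (hk : 1 ≤ k) (hc : IsConn (3 * k - 1) G) (hG : ClawFree G)
    (hv : Function.Injective v) : Separated G v := by
  have hN := Nb_card hv hc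
  have hmem : ∀ j l : Fin k, l ≠ j → l ∈ Finset.univ.erase j := fun j l hl =>
    Finset.mem_erase.2 ⟨hl, Finset.mem_univ _⟩
  have hIc : ∀ j : Fin k, (Finset.univ.erase j).card = k - 1 := by
    intro j
    rw [Finset.card_erase_of_mem (Finset.mem_univ _)]
    simp
  -- Case A: a vertex with many neighbours
  by_cases hA : ∃ j, 2 * k + 1 ≤ (Nb G v j).card
  · obtain ⟨j, hj⟩ := hA
    obtain ⟨e, he1, he2, he3⟩ := greedy G 3 (Nb G v) (Finset.univ.erase j) ∅
      (fun l _ T hT h3 => three_edge hG l T hT h3)
      (by
        intro l _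
        have := hN l
        rw [hIc, Finset.sdiff_empty]
        omega)
    refine assemble_three hG hv j e (fun l hl => he1 l (hmem j l hl))
      (fun l hl => (he2 l (hmem j l hl)).trans Finset.sdiff_subset)
      (fun l m hl hm hlm => he3 l (hmem j l hl) m (hmem j m hm) hlm) ?_
    have h1 : ((Finset.univ.erase j).biUnion e).card ≤ 2 * (k - 1) := by
      refine Finset.card_biUnion_le.trans ?_
      have : ∀ l ∈ Finset.univ.erase j, (e l).card ≤ 2 := by
        intro l hl
        obtain ⟨a, b, -, h⟩ := he1 l hl
        rw [h]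
        exact Finset.card_le_two
      have h2 := Finset.sum_le_card_nsmul _ _ 2 this
      rw [hIc, smul_eq_mul] at h2
      omega
    have h2 := Finset.le_card_sdiff ((Finset.univ.erase j).biUnion e) (Nb G v j)
    omega
  push Not at hA
  have hNe : ∀ i, (Nb G v i).card = 2 * k := fun i => by
    have h1 := hA i
    have h2 := hN i
    omega
  -- Case B: an edge in one neighbourhood that leaves another one
  by_cases hB : ∃ i j, i ≠ j ∧ ∃ x ∈ Nb G v i, ∃ y ∈ Nb G v i, G.Adj x y ∧ x ∉ Nb G v j
  · obtain ⟨i, j, hij, x, hx, y, hy, hxy, hxj⟩ := hB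
    have hcc : ((Finset.univ.erase j).erase i).card + 2 = k := by
      rw [Finset.card_erase_of_mem (hmem j i hij), hIc]
      have := i.2
      have := j.2
      have : i.val ≠ j.val := fun h => hij (Fin.ext h)
      omega
    obtain ⟨e, he1, he2, he3⟩ := greedy G 3 (Nb G v) ((Finset.univ.erase j).erase i) {x, y}
      (fun l _ T hT h3 => three_edge hG l T hT h3)
      (by
        intro l _
        have h1 := hNe l
        have h2 := Finset.le_card_sdiff {x, y} (Nb G v l)
        have h3 : ({x, y} : Finset V).card ≤ 2 := Finset.card_le_two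
        omega)
    have hmem' : ∀ l, l ≠ j → l ≠ i → l ∈ (Finset.univ.erase j).erase i := fun l h1 h2 =>
      Finset.mem_erase.2 ⟨h2, hmem j l h1⟩
    have hdis : ∀ l, l ≠ j → l ≠ i → Disjoint (e l) {x, y} := by
      intro l h1 h2
      rw [Finset.disjoint_left]
      intro z hz hz'
      have := he2 l (hmem' l h1 h2) hz
      rw [Finset.mem_sdiff] at this
      exact this.2 hz'
    have hsub : ∀ l, l ≠ j → Function.update e i {x, y} l ⊆ Nb G v l := by
      intro l hl
      by_cases h : l = i
      · subst h
        rw [Function.update_self]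
        intro z hz
        rcases Finset.mem_insert.1 hz with h | h
        · exact h ▸ hx
        · exact Finset.mem_singleton.1 h ▸ hy
      · rw [Function.update_of_ne h]
        exact (he2 l (hmem' l hl h)).trans Finset.sdiff_subset
    refine assemble_three hG hv j (Function.update e i {x, y}) ?_ hsub ?_ ?_
    · intro l hl
      by_cases h : l = i
      · subst h
        exact ⟨x, y, hxy, by simp⟩
      · rw [Function.update_of_ne h]
        exact he1 l (hmem' l hl h)
    · intro l m hl hm hlm
      by_cases h : l = i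
      · subst h
        rw [Function.update_self, Function.update_of_ne (Ne.symm hlm)]
        exact (hdis m hm (Ne.symm hlm)).symm
      · by_cases h' : m = i
        · subst h'
          rw [Function.update_self, Function.update_of_ne h]
          exact hdis l hl h
        · rw [Function.update_of_ne h, Function.update_of_ne h']
          exact he3 l (hmem' l hl h) m (hmem' m hm h') hlm
    · -- the used vertices inside `Nb j` are at most `2 (k - 2) + 1`
      have hU : Nb G v j \ (Finset.univ.erase j).biUnion (Function.update e i {x, y}) ⊇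
          Nb G v j \ ((((Finset.univ.erase j).erase i).biUnion e) ∪ {y}) := by
        intro z hz
        rw [Finset.mem_sdiff, Finset.mem_union, not_or, Finset.mem_singleton] at hz
        rw [Finset.mem_sdiff]
        refine ⟨hz.1, ?_⟩
        intro hz'
        obtain ⟨l, hl, hzl⟩ := Finset.mem_biUnion.1 hz'
        by_cases h : l = i
        · subst h
          rw [Function.update_self] at hzl
          rcases Finset.mem_insert.1 hzl with h | h
          · exact hxj (h ▸ hz.1)
          · exact hz.2.2 (Finset.mem_singleton.1 h)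
        · rw [Function.update_of_ne h] at hzl
          exact hz.2.1 (Finset.mem_biUnion.2 ⟨l, Finset.mem_erase.2 ⟨h, hl⟩, hzl⟩)
      have h0 := Finset.card_le_card hU
      have h1 : (((Finset.univ.erase j).erase i).biUnion e).card ≤ 2 * (k - 2) := by
        refine Finset.card_biUnion_le.trans ?_
        have : ∀ l ∈ (Finset.univ.erase j).erase i, (e l).card ≤ 2 := by
          intro l hl
          obtain ⟨a, b, -, h⟩ := he1 l hl
          rw [h]
          exact Finset.card_le_two
        have h2 := Finset.sum_le_card_nsmul _ _ 2 this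
        rw [smul_eq_mul] at h2
        omega
      have h2 := Finset.le_card_sdiff ((((Finset.univ.erase j).erase i).biUnion e) ∪ {y})
        (Nb G v j)
      have h3 := Finset.card_union_le (((Finset.univ.erase j).erase i).biUnion e) {y}
      have h4 := hNe j
      rw [Finset.card_singleton] at h3
      omega
  push Not at hB
  -- Case C
  by_cases hk1 : k = 1
  · -- one prescribed vertex
    subst hk1
    obtain ⟨a, b, hab, hN0⟩ := Finset.card_eq_two.1 (hNe 0)
    refine finish hc hv 0 {a} b ?_ (by simp) ?_ ?_ ?_
    · intro c hc d hd hcd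
      rw [Finset.mem_singleton] at hc hd
      exact absurd (hc.trans hd.symm) hcd
    · intro l
      rw [Fin.fin_one_eq_zero l, hN0]
      simp
    · rw [hN0]; simp
    · simpa using hab.symm
  by_cases hD : ∃ i j, ∃ x ∈ Nb G v i, x ∉ Nb G v j
  · obtain ⟨i, j, x, hx, hxj⟩ := hD
    have hij : i ≠ j := by rintro rfl; exact hxj hx
    have hiso : ∀ y ∈ Nb G v i, ¬ G.Adj x y := fun y hy hxy => hxj (hB i j hij x hx y hy hxy)
    have hclq : ∀ a ∈ (Nb G v i).erase x, ∀ b ∈ (Nb G v i).erase x, a ≠ b → G.Adj a b := by
      intro a ha b hb hab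
      rw [Finset.mem_erase] at ha hb
      rcases hG (v i) a b x ((mem_Nb G v).1 ha.2).1 ((mem_Nb G v).1 hb.2).1
        ((mem_Nb G v).1 hx).1 hab ha.1 hb.1 with h | h | h
      · exact h
      · exact absurd h.symm (hiso a ha.2)
      · exact absurd h.symm (hiso b hb.2)
    have hcard : ((Nb G v i).erase x).card + 1 = 2 * k := by
      rw [Finset.card_erase_of_mem hx, hNe i]
      omega
    refine finish hc hv i ((Nb G v i).erase x) x hclq hcard ?_ hx (Finset.notMem_erase x _)
    intro l a ha
    have ha' := Finset.mem_of_mem_erase ha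
    by_cases hl : i = l
    · exact hl ▸ ha'
    · -- another vertex of the clique
      obtain ⟨b, hb, hba⟩ : ∃ b ∈ (Nb G v i).erase x, b ≠ a := by
        apply Finset.exists_mem_ne
        omega
      exact hB i l hl a ha' b (Finset.mem_of_mem_erase hb) (hclq a ha b hb (Ne.symm hba))
  · push Not at hD
    have i0 : Fin k := ⟨0, by omega⟩
    -- all vertices are prescribed vertices or in `Nb i0`
    have hall : ∀ w, w ∈ Finset.univ.image v ∪ Nb G v i0 := by
      by_contra h
      push Not at h
      obtain ⟨w, hw⟩ := h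
      have hcon := hc.2 (Nb G v i0) (by rw [hNe]; omega)
      have h0 : v i0 ∈ {y | y ∉ Nb G v i0} := fun h => ((mem_Nb G v).1 h).2 i0 rfl
      have hw0 : w ∈ {y | y ∉ Nb G v i0} := fun h => hw (Finset.mem_union_right _ h)
      obtain ⟨p⟩ := hcon.preconnected ⟨v i0, h0⟩ ⟨w, hw0⟩
      have key : ∀ (a b : {y | y ∉ Nb G v i0}), (G.induce {y | y ∉ Nb G v i0}).Walk a b →
          a.1 ∈ Finset.univ.image v → b.1 ∈ Finset.univ.image v := by
        intro a b q
        induction q with
        | nil => exact id
        | @cons a c b hac q ih =>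
          intro ha
          apply ih
          obtain ⟨l, -, hl⟩ := Finset.mem_image.1 ha
          by_contra hcv
          have hcN : c.1 ∈ Nb G v l := by
            rw [mem_Nb, hl]
            refine ⟨hac, fun m hm => hcv ?_⟩
            rw [hm]
            exact Finset.mem_image_of_mem v (Finset.mem_univ m)
          exact c.2 (hD l i0 c.1 hcN)
      have := key _ _ p (Finset.mem_image_of_mem v (Finset.mem_univ i0))
      exact hw (Finset.mem_union_left _ this)
    have hcardV : Fintype.card V ≤ 3 * k := by
      rw [← Finset.card_univ]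
      have h1 : (Finset.univ : Finset V).card ≤ (Finset.univ.image v ∪ Nb G v i0).card :=
        Finset.card_le_card fun w _ => hall w
      have h2 := Finset.card_union_le (Finset.univ.image v) (Nb G v i0)
      have h3 : (Finset.univ.image v).card = k := by
        rw [Finset.card_image_of_injective _ hv]; simp
      rw [h3, hNe] at h2
      omega
    have hcomplete : ∀ a b, a ≠ b → G.Adj a b := by
      intro a b hab
      by_contra h
      have h1 := degree_ge hc a
      have h2 : Finset.univ.filter (G.Adj a) ⊆ (Finset.univ.erase a).erase b := by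
        intro w hw
        rw [Finset.mem_filter] at hw
        rw [Finset.mem_erase, Finset.mem_erase]
        refine ⟨?_, hw.2.ne', Finset.mem_univ _⟩
        rintro rfl
        exact h hw.2
      have h3 := Finset.card_le_card h2
      rw [Finset.card_erase_of_mem (Finset.mem_erase.2 ⟨Ne.symm hab, Finset.mem_univ _⟩),
        Finset.card_erase_of_mem (Finset.mem_univ _), Finset.card_univ] at h3
      omega
    obtain ⟨x, hx⟩ : (Nb G v i0).Nonempty := by
      rw [← Finset.card_pos, hNe]
      omega
    refine finish hc hv i0 ((Nb G v i0).erase x) x (fun a _ b _ hab => hcomplete a b hab) ?_ ?_ hx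
      (Finset.notMem_erase x _)
    · rw [Finset.card_erase_of_mem hx, hNe]
      omega
    · intro l a ha
      exact hD i0 l a (Finset.mem_of_mem_erase ha)

end Upper

theorem suffices_of (k : ℕ) (hk : 1 ≤ k) : Suffices k (3 * k - 1) := by
  classical
  intro V _ G hc hG v hv
  exact upper hk hc hG hv

/-! ### The lower bound -/

lemma support_card {V : Type*} [DecidableEq V] {G : SimpleGraph V} {u : V} (p : G.Walk u u)
    (hp : p.IsCycle) : 3 ≤ p.support.toFinset.card := by
  have h1 := hp.three_le_length
  have h2 := hp.support_nodup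
  have h3 : p.support.tail.toFinset ⊆ p.support.toFinset := by
    intro x hx
    rw [List.mem_toFinset] at hx ⊢
    exact List.mem_of_mem_tail hx
  have h4 := Finset.card_le_card h3
  rw [List.toFinset_card_of_nodup h2] at h4
  have h5 : p.support.tail.length = p.length := by
    rw [List.length_tail, Walk.length_support]
    simp
  omega

lemma not_suffices (k c : ℕ) (hk : 1 ≤ k) (hc : c < 3 * k - 1) : ¬ Suffices k c := by
  intro h
  have hcon : IsConn c (⊤ : SimpleGraph (Fin (3 * k - 1))) := by
    refine ⟨by simpa using hc, fun S hS => ?_⟩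
    have hne : Nonempty {x : Fin (3 * k - 1) | x ∉ S} := by
      by_contra hcon
      rw [not_nonempty_iff, isEmpty_iff] at hcon
      have : (Finset.univ : Finset (Fin (3 * k - 1))) ⊆ S := by
        intro x _
        by_contra hx
        exact hcon ⟨x, hx⟩
      have := Finset.card_le_card this
      rw [Finset.card_univ, Fintype.card_fin] at this
      omega
    refine { preconnected := ?_, nonempty := hne }
    intro a b
    by_cases hab : a = b
    · rw [hab]
    · apply Adj.reachable
      show (⊤ : SimpleGraph (Fin (3 * k - 1))).Adj a.1 b.1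
      exact fun h => hab (Subtype.ext h)
  obtain ⟨p, hp, hd⟩ := h (Fin (3 * k - 1)) ⊤ hcon (fun _ _ _ _ _ _ _ hab _ _ => Or.inl hab)
    (Fin.castLE (by omega)) (Fin.castLE_injective _)
  have h1 : ∑ i : Fin k, (p i).support.toFinset.card ≤ 3 * k - 1 := by
    rw [← Finset.card_biUnion]
    · refine (Finset.card_le_univ _).trans ?_
      simp
    · intro i _ j _ hij
      rw [Function.onFun, Finset.disjoint_left]
      intro x hx hx'
      exact hd i j hij x (List.mem_toFinset.1 hx) (List.mem_toFinset.1 hx')
  have h2 : ∑ i : Fin k, (p i).support.toFinset.card ≥ ∑ _i : Fin k, 3 :=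
    Finset.sum_le_sum fun i _ => support_card (p i) (hp i)
  rw [Finset.sum_const, Finset.card_univ, Fintype.card_fin, smul_eq_mul] at h2
  omega

/-- For every `k ≥ 1` the least connectivity that forces any `k` vertices of a claw-free graph to
be separated by `k` disjoint cycles is `3k - 1`. -/
theorem result (k : ℕ) (hk : 1 ≤ k) :
    IsLeast {c : ℕ | Suffices k c} (3 * k - 1) ∧ f k = ((3 * k - 1 : ℕ) : ℕ∞) := by
  have hL : IsLeast {c : ℕ | Suffices k c} (3 * k - 1) := by
    refine ⟨suffices_of k hk, fun c hc => ?_⟩
    by_contra h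
    exact not_suffices k c hk (not_le.1 h) hc
  refine ⟨hL, ?_⟩
  apply le_antisymm
  · exact iInf₂_le (3 * k - 1) hL.1
  · exact le_iInf₂ fun c hc => by exact_mod_cast hL.2 hc

end Pool.Agent.Results.MP_6859a2_co.ClawFreeCycles
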